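import Pool.Agent.H.MP_e8899b_al.Grp

set_option autoImplicit false

namespace Pool.Agent.H.MP_e8899b_al

open Subgroup
open scoped commutatorElement IsMulCommutative

theorem cen_conj {E : Type} [Group E] {z : E} (hz : z ∈ center E) (g : E) : g * z * g⁻¹ = z := by
  rw [mem_center_iff.1 hz g]; group

theorem cm_right {E : Type} [Group E] (a b c : E) (h : ⁅a, c⁆ ∈ center E) :
    ⁅a, b * c⁆ = ⁅a, b⁆ * ⁅a, c⁆ := by
  have : ⁅a, b * c⁆ = ⁅a, b⁆ * (b * ⁅a, c⁆ * b⁻¹) := by
    simp only [commutatorElement_def]; group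
  rw [this, cen_conj h]

theorem cm_left {E : Type} [Group E] (a b c : E) (h : ⁅b, c⁆ ∈ center E) :
    ⁅a * b, c⁆ = ⁅b, c⁆ * ⁅a, c⁆ := by
  have : ⁅a * b, c⁆ = (a * ⁅b, c⁆ * a⁻¹) * ⁅a, c⁆ := by
    simp only [commutatorElement_def]; group
  rw [this, cen_conj h]

theorem cm_pow_right {E : Type} [Group E] (a c : E) (h : ⁅a, c⁆ ∈ center E) (n : ℕ) :
    ⁅a, c ^ n⁆ = ⁅a, c⁆ ^ n := by
  induction n with
  | zero => simp
  | succ n ih => rw [pow_succ, cm_right _ _ _ h, ih, pow_succ]

theorem cm_pow_left {E : Type} [Group E] (a c : E) (h : ⁅a, c⁆ ∈ center E) (n : ℕ) :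
    ⁅a ^ n, c⁆ = ⁅a, c⁆ ^ n := by
  induction n with
  | zero => simp
  | succ n ih => rw [pow_succ, cm_left _ _ _ h, ih, pow_succ']

theorem cm_cen_left {E : Type} [Group E] {z : E} (hz : z ∈ center E) (g : E) : ⁅z, g⁆ = 1 :=
  commutatorElement_eq_one_iff_mul_comm.2 (mem_center_iff.1 hz g).symm

theorem cm_cen_right {E : Type} [Group E] {z : E} (hz : z ∈ center E) (g : E) : ⁅g, z⁆ = 1 :=
  commutatorElement_eq_one_iff_mul_comm.2 (mem_center_iff.1 hz g)

def th {E : Type} [Group E] (d : E) (hd : ∀ e, ⁅d, e⁆ ∈ center E) : E →* center E :=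
  MonoidHom.mk' (fun e => ⟨⁅d, e⁆, hd e⟩) (fun a b => Subtype.ext (cm_right d a b (hd b)))

theorem mul_hom {ι M : Type} [Group M] (f z g : FreeGroup ι →* M)
    (hz : ∀ i, z (FreeGroup.of i) ∈ center M)
    (h : ∀ i, f (FreeGroup.of i) = z (FreeGroup.of i) * g (FreeGroup.of i)) (x : FreeGroup ι) :
    f x = z x * g x := by
  have hzc : ∀ x, z x ∈ center M := by
    intro x
    induction x using FreeGroup.induction_on with
    | C1 => rw [map_one]; exact one_mem _
    | of i => exact hz i
    | inv_of i ih => rw [map_inv]; exact inv_mem ih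
    | mul x y hx hy => rw [map_mul]; exact mul_mem hx hy
  induction x using FreeGroup.induction_on with
  | C1 => simp
  | of i => exact h i
  | inv_of i ih =>
    rw [map_inv, map_inv, map_inv, ih, mul_inv_rev]
    exact mem_center_iff.1 (inv_mem (hz i)) _
  | mul x y hx hy =>
    rw [map_mul, map_mul, map_mul, hx, hy]
    have := mem_center_iff.1 (hzc y) (g x)
    calc z x * g x * (z y * g y) = z x * (g x * z y) * g y := by group
      _ = z x * (z y * g x) * g y := by rw [this]
      _ = _ := by group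

theorem all_e {ι : Type} (h : FreeGroup ι →* H) (h0 : ∀ i, (h (FreeGroup.of i)).e = 0)
    (s : FreeGroup ι) : (h s).e = 0 := by
  have : eps.comp h = 1 := by
    ext i
    exact congrArg Multiplicative.ofAdd (h0 i)
  exact congrArg Multiplicative.toAdd (DFunLike.congr_fun this s)

def RR (ι : Type) : Subgroup (FreeGroup ι) := normalClosure {r | ∃ a s : FreeGroup ι, r = ⁅a, s ^ 3⁆}

instance (ι : Type) : (RR ι).Normal := normalClosure_normal

theorem quot_kill {ι M : Type} [Fintype ι] [DecidableEq ι] [Group M] (q : FreeGroup ι →* M)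
    (hK : ∀ k, (∀ h : FreeGroup ι →* H, h k = 1) → q k = 1)
    (hc : ∀ s, q (s ^ 3) ∈ center M) (w : FreeGroup ι)
    (hw : ∀ (h : FreeGroup ι →* H) (a b : H),
      (∀ i, h (FreeGroup.of i) ∈ closure ({a, b} : Set H)) → h w = 1) : q w = 1 := by
  let φ : Finset ι → FreeGroup ι →* FreeGroup ι := fun T =>
    FreeGroup.lift fun i => if i ∈ T then FreeGroup.of i else FreeGroup.of i ^ 4
  have key : ∀ T : Finset ι, q (φ T w) = 1 := by
    intro T
    induction T using Finset.induction_on with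
    | empty =>
      refine hK _ fun h => hw (h.comp (φ ∅)) gX gY fun i => ?_
      have h1 : (h.comp (φ ∅)) (FreeGroup.of i) = h (FreeGroup.of i) ^ 4 := by simp [φ]
      obtain ⟨a, b, c, e⟩ := genP _ (four_e (h (FreeGroup.of i)))
      have hX : gX ∈ closure ({gX, gY} : Set H) := subset_closure (by simp)
      have hY : gY ∈ closure ({gX, gY} : Set H) := subset_closure (by simp)
      rw [h1, e]
      exact mul_mem (mul_mem (pow_mem hX _) (pow_mem hY _))
        (pow_mem (mul_mem (mul_mem (mul_mem hX hY) (inv_mem hX)) (inv_mem hY)) _)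
    | insert j T hj ih =>
      let ψ : FreeGroup ι →* FreeGroup ι :=
        FreeGroup.lift fun i => if i = j then FreeGroup.of j ^ 3 else 1
      have h1 : q (ψ w) = 1 := by
        refine hK _ fun h => hw (h.comp ψ) (h (FreeGroup.of j)) 1 fun i => ?_
        have hX : h (FreeGroup.of j) ∈ closure ({h (FreeGroup.of j), 1} : Set H) :=
          subset_closure (by simp)
        by_cases hi : i = j
        · have : (h.comp ψ) (FreeGroup.of i) = h (FreeGroup.of j) ^ 3 := by simp [ψ, hi]
          rw [this]; exact pow_mem hX _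
        · have : (h.comp ψ) (FreeGroup.of i) = 1 := by simp [ψ, hi]
          rw [this]; exact one_mem _
      have h2 := mul_hom (q.comp (φ (insert j T))) (q.comp ψ) (q.comp (φ T)) (fun i => by
        by_cases hi : i = j
        · have : (q.comp ψ) (FreeGroup.of i) = q (FreeGroup.of j ^ 3) := by simp [ψ, hi]
          rw [this]; exact hc _
        · have : (q.comp ψ) (FreeGroup.of i) = 1 := by simp [ψ, hi]
          rw [this]; exact one_mem _) (fun i => by
        by_cases hi : i = j
        · subst hi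
          have h6 : q (FreeGroup.of i) ^ 6 = 1 := by
            rw [← map_pow]; exact hK _ fun h => by rw [map_pow, pow_six]
          have e1 : (q.comp (φ (insert i T))) (FreeGroup.of i) = q (FreeGroup.of i) := by
            simp [φ]
          have e2 : (q.comp ψ) (FreeGroup.of i) = q (FreeGroup.of i) ^ 3 := by simp [ψ]
          have e3 : (q.comp (φ T)) (FreeGroup.of i) = q (FreeGroup.of i) ^ 4 := by simp [φ, hj]
          rw [e1, e2, e3, ← pow_add, pow_succ, h6, one_mul]
        · simp [φ, ψ, hi]) w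
      simp only [MonoidHom.comp_apply] at h2
      rw [h2, h1, ih, mul_one]
  have h3 : φ Finset.univ = MonoidHom.id _ := by ext i; simp [φ]
  simpa [h3] using key Finset.univ

theorem lam {ι E : Type} [Group E] (π : FreeGroup ι →* E) (hπ : Function.Surjective π)
    (hK : ∀ k, (∀ h : FreeGroup ι →* H, h k = 1) → π k ∈ center E) (c : FreeGroup ι)
    (hc1 : ∀ h : FreeGroup ι →* H, (h c).e = 0)
    (hc2 : ∀ h : FreeGroup ι →* H, Cen (h c) ∨ ∀ s, (h s).e = 0) :
    ∀ r ∈ RR ι, ⁅π r, π c⁆ = 1 := by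
  have hR : ∀ h : FreeGroup ι →* H, (∀ s, (h s).e = 0) → ∀ r ∈ RR ι, h r = 1 := by
    intro h h0
    change RR ι ≤ h.ker
    refine normalClosure_le_normal (N := h.ker) ?_
    rintro r ⟨a, s, rfl⟩
    change h _ = 1
    rw [map_commutatorElement, map_pow, cen_cube _ (h0 s), commutatorElement_one_right]
  have hl : ∀ r ∈ RR ι, ⁅π r, π c⁆ ∈ center E := by
    intro r hr
    rw [← map_commutatorElement]
    refine hK _ fun h => ?_
    rw [map_commutatorElement]
    rcases hc2 h with h1 | h1
    · exact commutatorElement_eq_one_iff_mul_comm.2 (cen_comm _ _ h1).symm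
    · rw [hR h h1 r hr, commutatorElement_one_left]
  have hinv : ∀ r ∈ RR ι, ∀ e, ⁅π (e * r * e⁻¹), π c⁆ = ⁅π r, π c⁆ := by
    intro r hr e
    let d := c⁻¹ * e⁻¹ * c * e
    have hd : ∀ x, ⁅π d, x⁆ ∈ center E := by
      intro x
      obtain ⟨x, rfl⟩ := hπ x
      rw [← map_commutatorElement]
      refine hK _ fun h => ?_
      rw [map_commutatorElement]
      refine commutatorElement_eq_one_iff_mul_comm.2 (cen_comm _ _ ?_)
      have e1 : h d = (h c)⁻¹ * (h e)⁻¹ * h c * h e := by simp [d]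
      rcases hc2 h with h1 | h1
      · have e2 : h d = 1 := by
          rw [e1, mul_assoc, cen_comm _ _ h1]; group
        rw [e2]; decide
      · rw [e1]; exact comm_cen _ _ (h1 c) (h1 e)
    have h1 : RR ι ≤ ((th (π d) hd).comp π).ker := by
      refine normalClosure_le_normal ?_
      rintro r ⟨a, s, rfl⟩
      change ((th (π d) hd).comp π) _ = 1
      rw [map_commutatorElement]
      exact commutatorElement_eq_one_iff_mul_comm.2 (mul_comm _ _)
    have h2 : ⁅π d, π r⁆ = 1 := congrArg Subtype.val (h1 hr)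
    have h3 : ⁅π r, π d⁆ = 1 := by rw [← commutatorElement_inv, h2, inv_one]
    have h4 : ⁅π (e * r * e⁻¹), π c⁆ = π e * ⁅π r, π c * π d⁆ * (π e)⁻¹ := by
      simp only [d, commutatorElement_def, map_mul, map_inv]; group
    rw [h4, cm_right _ _ _ (by rw [h3]; exact one_mem _), h3, mul_one, cen_conj (hl r hr)]
  let N : Subgroup (FreeGroup ι) := RR ι ⊓ (centralizer {π c}).comap π
  have hN : ∀ r, r ∈ N ↔ r ∈ RR ι ∧ ⁅π r, π c⁆ = 1 := by
    intro r
    simp only [N, mem_inf, mem_comap, mem_centralizer_singleton_iff,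
      commutatorElement_eq_one_iff_mul_comm]
  have : N.Normal := ⟨fun r hr e => by
    rw [hN] at hr ⊢
    exact ⟨Normal.conj_mem inferInstance r hr.1 e, by rw [hinv r hr.1, hr.2]⟩⟩
  have hle : RR ι ≤ N := by
    refine normalClosure_le_normal ?_
    rintro r ⟨a, s, rfl⟩
    have hr : ⁅a, s ^ 3⁆ ∈ RR ι := subset_normalClosure ⟨a, s, rfl⟩
    refine (hN _).2 ⟨hr, ?_⟩
    have h6 : π (s ^ 3 * s ^ 3) ∈ center E := hK _ fun h => by
      rw [← pow_add, map_pow, pow_six]
    have e1 : π ⁅a, s ^ 3⁆ * π (s ^ 3 * ⁅a, s ^ 3⁆ * (s ^ 3)⁻¹) = 1 := by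
      have : ⁅a, s ^ 3⁆ * (s ^ 3 * ⁅a, s ^ 3⁆ * (s ^ 3)⁻¹) = ⁅a, s ^ 3 * s ^ 3⁆ := by
        simp only [commutatorElement_def]; group
      rw [← map_mul, this, map_commutatorElement, cm_cen_right h6]
    have e2 := cm_left (π ⁅a, s ^ 3⁆) (π (s ^ 3 * ⁅a, s ^ 3⁆ * (s ^ 3)⁻¹)) (π c)
      (by rw [hinv _ hr]; exact hl _ hr)
    rw [e1, hinv _ hr, commutatorElement_one_left] at e2
    have e3 := cm_pow_right _ _ (hl _ hr) 3
    have h3 : π c ^ 3 ∈ center E := by
      rw [← map_pow]; exact hK _ fun h => by rw [map_pow, cen_cube _ (hc1 h)]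
    rw [cm_cen_right h3, pow_succ, pow_two, ← e2, one_mul] at e3
    exact e3.symm
  exact fun r hr => ((hN r).1 (hle hr)).2

theorem core {ι E : Type} [Fintype ι] [DecidableEq ι] [Group E] (π : FreeGroup ι →* E)
    (hπ : Function.Surjective π)
    (hK : ∀ k, (∀ h : FreeGroup ι →* H, h k = 1) → π k ∈ center E) (w : FreeGroup ι)
    (hw : ∀ (h : FreeGroup ι →* H) (a b : H),
      (∀ i, h (FreeGroup.of i) ∈ closure ({a, b} : Set H)) → h w = 1) : π w ∈ center E := by
  have hcen : ∀ h : FreeGroup ι →* H, Cen (h w) := by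
    intro h
    have h1 : pr1 (h w) = 1 := hw (pr1.comp h) gX gT fun i => by
      obtain ⟨a, b, e⟩ := gen1 (h (FreeGroup.of i))
      rw [MonoidHom.comp_apply, e]
      exact mul_mem (pow_mem (subset_closure (by simp)) _) (pow_mem (subset_closure (by simp)) _)
    have h2 : pr2 (h w) = 1 := hw (pr2.comp h) gY gT fun i => by
      obtain ⟨a, b, e⟩ := gen2 (h (FreeGroup.of i))
      rw [MonoidHom.comp_apply, e]
      exact mul_mem (pow_mem (subset_closure (by simp)) _) (pow_mem (subset_closure (by simp)) _)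
    exact ⟨congrArg H.x h1, congrArg H.y h2, congrArg H.e h1⟩
  have hd : ∀ x, ⁅π w, x⁆ ∈ center E := by
    intro x
    obtain ⟨x, rfl⟩ := hπ x
    rw [← map_commutatorElement]
    refine hK _ fun h => ?_
    rw [map_commutatorElement]
    exact commutatorElement_eq_one_iff_mul_comm.2 (cen_comm _ _ (hcen h))
  let θ : FreeGroup ι →* center E := (th (π w) hd).comp π
  have h3 : ∀ u, θ u ^ 3 = 1 := by
    intro u
    apply Subtype.ext
    change ⁅π w, π u⁆ ^ 3 = 1
    rw [← cm_pow_left _ _ (hd _)]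
    apply cm_cen_left
    rw [← map_pow]
    exact hK _ fun h => by rw [map_pow, cen_cube _ (hcen h).2.2]
  have h4 : ∀ u, θ u ^ 4 = θ u := fun u => by rw [pow_succ, h3, one_mul]
  have hav : ∀ (u : FreeGroup ι) (T : Finset ι), ∃ c, θ c = θ u ∧
      (∀ h : FreeGroup ι →* H, (h c).e = 0) ∧
      ∀ h : FreeGroup ι →* H, ∀ i ∈ T, (h (FreeGroup.of i)).e ≠ 0 → Cen (h c) := by
    intro u T
    induction T using Finset.induction_on with
    | empty =>
      exact ⟨u ^ 4, by rw [map_pow, h4], fun h => by rw [map_pow]; exact four_e _, by simp⟩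
    | insert j T hj ih =>
      obtain ⟨c, c1, c2, c3⟩ := ih
      refine ⟨(c * (FreeGroup.of j * c * (FreeGroup.of j)⁻¹)) ^ 2, ?_, fun h => ?_,
        fun h i hi hne => ?_⟩
      · rw [← c1, ← h4 c, map_pow, map_mul, map_mul, map_mul, map_inv, mul_comm (θ (FreeGroup.of j)),
          mul_inv_cancel_right, ← pow_two, ← pow_mul]
      · simp only [map_pow, map_mul, map_inv]
        exact av_e _ _ (c2 h)
      · simp only [map_pow, map_mul, map_inv]
        rcases Finset.mem_insert.1 hi with rfl | hi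
        · exact av_cen' _ _ (c2 h) hne
        · exact av_cen _ _ (c3 h i hi hne)
  let N : Subgroup E := (RR ι).map π ⊔ center E
  have hn1 : ((RR ι).map π).Normal := Normal.map inferInstance π hπ
  have hn : N.Normal := sup_normal _ _
  have hwN : π w ∈ N := by
    rw [← QuotientGroup.eq_one_iff]
    refine quot_kill ((QuotientGroup.mk' N).comp π) (fun k hk => ?_) (fun s => ?_) w hw
    · exact (QuotientGroup.eq_one_iff _).2 (mem_sup_right (hK k hk))
    · rw [mem_center_iff]
      intro m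
      obtain ⟨m, rfl⟩ := QuotientGroup.mk'_surjective N m
      obtain ⟨a, rfl⟩ := hπ m
      rw [← commutatorElement_eq_one_iff_mul_comm]
      change ⁅((QuotientGroup.mk' N).comp π) a, _⁆ = 1
      rw [← map_commutatorElement]
      exact (QuotientGroup.eq_one_iff _).2
        (mem_sup_left (mem_map_of_mem π (subset_normalClosure ⟨a, s, rfl⟩)))
  rw [mem_center_iff]
  intro g
  obtain ⟨u, rfl⟩ := hπ g
  obtain ⟨c, c1, c2, c3⟩ := hav u Finset.univ
  have c4 : ∀ h : FreeGroup ι →* H, Cen (h c) ∨ ∀ s, (h s).e = 0 := by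
    intro h
    by_cases h0 : ∀ i, (h (FreeGroup.of i)).e = 0
    · exact Or.inr (all_e h h0)
    · push Not at h0
      obtain ⟨i, hi⟩ := h0
      exact Or.inl (c3 h i (Finset.mem_univ _) hi)
  have hl := lam π hπ hK c c2 c4
  have hle : N ≤ centralizer {π c} := by
    refine sup_le ?_ (center_le_centralizer _)
    rintro _ ⟨r, hr, rfl⟩
    exact mem_centralizer_singleton_iff.2 (commutatorElement_eq_one_iff_mul_comm.1 (hl r hr))
  have e1 : ⁅π w, π c⁆ = 1 :=
    commutatorElement_eq_one_iff_mul_comm.2 (mem_centralizer_singleton_iff.1 (hle hwN))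
  have e2 : ⁅π w, π c⁆ = ⁅π w, π u⁆ := congrArg Subtype.val c1
  exact (commutatorElement_eq_one_iff_mul_comm.1 (e2 ▸ e1)).symm

end Pool.Agent.H.MP_e8899b_al
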