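import Mathlib

set_option autoImplicit false

namespace Pool.Agent.H.MP_e8899b_al

@[ext] structure H where
  x : ZMod 3
  y : ZMod 3
  z : ZMod 3
  e : ZMod 2
deriving DecidableEq, Fintype

def sg (e : ZMod 2) : ZMod 3 := if e = 0 then 1 else -1

instance : Mul H :=
  ⟨fun a b => ⟨a.x + sg a.e * b.x, a.y + sg a.e * b.y, a.z + b.z + a.x * (sg a.e * b.y),
    a.e + b.e⟩⟩
instance : One H := ⟨⟨0, 0, 0, 0⟩⟩
instance : Inv H := ⟨fun a => ⟨-(sg a.e * a.x), -(sg a.e * a.y), -a.z + a.x * a.y, a.e⟩⟩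

theorem mul_def (a b : H) : a * b = ⟨a.x + sg a.e * b.x, a.y + sg a.e * b.y,
    a.z + b.z + a.x * (sg a.e * b.y), a.e + b.e⟩ := rfl

theorem sg_add : ∀ a b : ZMod 2, sg (a + b) = sg a * sg b := by decide
theorem sg_sq : ∀ a : ZMod 2, sg a * sg a = 1 := by decide

instance : Group H := Group.ofLeftAxioms
  (by
    intro a b c
    ext
    · simp only [mul_def, sg_add]; ring
    · simp only [mul_def, sg_add]; ring
    · simp only [mul_def, sg_add]
      linear_combination (b.x * sg b.e * c.y) * sg_sq a.e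
    · simp only [mul_def]; ring)
  (by decide +kernel) (by decide +kernel)

def Cen (a : H) : Prop := a.x = 0 ∧ a.y = 0 ∧ a.e = 0
instance (a : H) : Decidable (Cen a) := by unfold Cen; infer_instance

theorem cen_comm : ∀ a b : H, Cen a → a * b = b * a := by decide +kernel
theorem cen_cube : ∀ a : H, a.e = 0 → a ^ 3 = 1 := by decide +kernel
theorem pow_six : ∀ a : H, a ^ 6 = 1 := by decide +kernel
theorem four_e : ∀ a : H, (a ^ 4).e = 0 := by decide +kernel
theorem av_e : ∀ c s : H, c.e = 0 → ((c * (s * c * s⁻¹)) ^ 2).e = 0 := by decide +kernel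
theorem av_cen : ∀ c s : H, Cen c → Cen ((c * (s * c * s⁻¹)) ^ 2) := by decide +kernel
theorem av_cen' : ∀ c s : H, c.e = 0 → s.e ≠ 0 → Cen ((c * (s * c * s⁻¹)) ^ 2) := by
  decide +kernel
theorem comm_cen : ∀ c s : H, c.e = 0 → s.e = 0 → Cen (c⁻¹ * s⁻¹ * c * s) := by decide +kernel

def pr1 : H →* H := MonoidHom.mk' (fun a => ⟨a.x, 0, 0, a.e⟩) (fun a b => by
  simp [mul_def])
def pr2 : H →* H := MonoidHom.mk' (fun a => ⟨0, a.y, 0, a.e⟩) (fun a b => by
  simp [mul_def])
def eps : H →* Multiplicative (ZMod 2) :=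
  MonoidHom.mk' (fun a => Multiplicative.ofAdd a.e) (fun _ _ => rfl)

def gX : H := ⟨1, 0, 0, 0⟩
def gY : H := ⟨0, 1, 0, 0⟩
def gT : H := ⟨0, 0, 0, 1⟩

theorem gen1 : ∀ a : H, ∃ i j : Fin 3, pr1 a = gX ^ i.val * gT ^ j.val := by decide +kernel
theorem gen2 : ∀ a : H, ∃ i j : Fin 3, pr2 a = gY ^ i.val * gT ^ j.val := by decide +kernel
theorem genP : ∀ a : H, a.e = 0 → ∃ i j l : Fin 3,
    a = gX ^ i.val * gY ^ j.val * (gX * gY * gX⁻¹ * gY⁻¹) ^ l.val := by decide +kernel

def fn (α β : ZMod 3) (a : H) : ZMod 3 := α * a.x + β * a.y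

def Sub (α β c : ZMod 3) : Subgroup H where
  carrier := {a | fn α β a = if a.e = 0 then 0 else c}
  one_mem' := by
    change α * 0 + β * 0 = if (0 : ZMod 2) = 0 then 0 else c
    simp
  mul_mem' := by
    intro a b ha hb
    have h : fn α β (a * b) = fn α β a + sg a.e * fn α β b := by
      simp only [fn, mul_def]; ring
    have key : ∀ (p q c : ZMod 3) (e f : ZMod 2), (p = if e = 0 then 0 else c) →
      (q = if f = 0 then 0 else c) → p + sg e * q = if e + f = 0 then 0 else c := by decide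
    change fn α β (a * b) = if a.e + b.e = 0 then 0 else c
    rw [h]
    exact key _ _ _ _ _ ha hb
  inv_mem' := by
    intro a ha
    have h : fn α β a⁻¹ = -(sg a.e * fn α β a) := by
      change α * -(sg a.e * a.x) + β * -(sg a.e * a.y) = _
      simp only [fn]; ring
    have key : ∀ (p c : ZMod 3) (e : ZMod 2), (p = if e = 0 then 0 else c) →
      -(sg e * p) = if e = 0 then 0 else c := by decide
    change fn α β a⁻¹ = if a.e = 0 then 0 else c
    rw [h]
    exact key _ _ _ ha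

theorem sub_exists : ∀ a b : H, (a.e = 0 ∧ b.e = 0) ∨ ∃ α β c : ZMod 3, (α ≠ 0 ∨ β ≠ 0) ∧
    (fn α β a = if a.e = 0 then 0 else c) ∧ (fn α β b = if b.e = 0 then 0 else c) := by
  decide +kernel

theorem sub_comm (α β : ZMod 3) (h : α ≠ 0 ∨ β ≠ 0) (a b : H) (ha : a.e = 0) (hb : b.e = 0)
    (fa : fn α β a = 0) (fb : fn α β b = 0) : a * b = b * a := by
  have key : ∀ α β x y u v : ZMod 3, (α ≠ 0 ∨ β ≠ 0) → α * x + β * y = 0 → α * u + β * v = 0 →
      x * v = u * y := by decide +kernel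
  have h2 := key α β a.x a.y b.x b.y h fa fb
  have h1 : sg 0 = 1 := rfl
  ext
  · simp only [mul_def, ha, hb, h1]; ring
  · simp only [mul_def, ha, hb, h1]; ring
  · simp only [mul_def, ha, hb, h1]; linear_combination h2
  · simp only [mul_def]; ring

end Pool.Agent.H.MP_e8899b_al
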